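import Pool.Agent.Helper6.LPA.St

/-! Project LPA, module DDB: the correlation number is positive and small. -/

set_option autoImplicit false

noncomputable section

namespace Pool.Agent.Helper8.LPA

open Finset
open Pool.Agent.Helper6.LP Pool.Agent.Helper6.LPA

private theorem rA_pos (y z : ℕ) (hy : 1 ≤ y) (hz : 1 ≤ z) : 1 ≤ (rA y z).natAbs := by
  have hy' : (1 : ℤ) ≤ y := by exact_mod_cast hy
  have hz' : (1 : ℤ) ≤ z := by exact_mod_cast hz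
  have h : 0 < rA y z := by
    unfold rA
    have e : (y : ℤ) ^ 2 + y * (y + 1) * ((z : ℤ) ^ 2 - 2 * z) + (z : ℤ) ^ 2 * (y + 1) ^ 2 =
        (y : ℤ) ^ 2 + y * (y + 1) * ((z : ℤ) - 1) ^ 2 + y * (y + 1) * ((z : ℤ) ^ 2 - 1) +
          (z : ℤ) ^ 2 * (y + 1) := by ring
    rw [e]
    have h1 : 0 ≤ (y : ℤ) * (y + 1) * ((z : ℤ) - 1) ^ 2 := by positivity
    have h2 : 0 ≤ (y : ℤ) * (y + 1) * ((z : ℤ) ^ 2 - 1) := by
      have : (0 : ℤ) ≤ (z : ℤ) ^ 2 - 1 := by nlinarith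
      positivity
    have h3 : 0 ≤ (z : ℤ) ^ 2 * (y + 1) := by positivity
    have h4 : 0 < (y : ℤ) ^ 2 := by positivity
    linarith
  omega

private theorem rB_pos (y z : ℕ) (hy : 1 ≤ y) (hz : 1 ≤ z) : 1 ≤ (rB y z).natAbs := by
  have hy' : (1 : ℤ) ≤ y := by exact_mod_cast hy
  have hz' : (1 : ℤ) ≤ z := by exact_mod_cast hz
  have h : 0 < rB y z := by
    unfold rB
    have h1 : 0 ≤ 2 * (y : ℤ) * z * ((y : ℤ) + z - 2) := by
      have : (0 : ℤ) ≤ (y : ℤ) + z - 2 := by linarith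
      positivity
    have h2 : 0 < ((y : ℤ) + z) ^ 2 := by positivity
    linarith
  omega

private theorem rA_le (y z K : ℕ) (hK : 1 ≤ K) (hy : 1 ≤ y) (hz : 1 ≤ z) (hyK : y ≤ K)
    (hzK : z ≤ K) : (rA y z).natAbs ≤ 7 * K ^ 4 := by
  have hy' : (1 : ℤ) ≤ y := by exact_mod_cast hy
  have hz' : (1 : ℤ) ≤ z := by exact_mod_cast hz
  have hyK' : (y : ℤ) ≤ K := by exact_mod_cast hyK
  have hzK' : (z : ℤ) ≤ K := by exact_mod_cast hzK
  have hK' : (1 : ℤ) ≤ K := by exact_mod_cast hK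
  have hpos : 0 ≤ rA y z := by
    have := rA_pos y z hy hz
    unfold rA
    have e : (y : ℤ) ^ 2 + y * (y + 1) * ((z : ℤ) ^ 2 - 2 * z) + (z : ℤ) ^ 2 * (y + 1) ^ 2 =
        (y : ℤ) ^ 2 + y * (y + 1) * ((z : ℤ) - 1) ^ 2 + y * (y + 1) * ((z : ℤ) ^ 2 - 1) +
          (z : ℤ) ^ 2 * (y + 1) := by ring
    rw [e]
    have h2 : (0 : ℤ) ≤ (z : ℤ) ^ 2 - 1 := by nlinarith
    positivity
  have hz2 : (z : ℤ) ^ 2 ≤ (K : ℤ) ^ 2 := pow_le_pow_left₀ (by linarith) hzK' 2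
  have hy2 : (y : ℤ) ^ 2 ≤ (K : ℤ) ^ 2 := pow_le_pow_left₀ (by linarith) hyK' 2
  have hK2 : (K : ℤ) ^ 2 ≤ (K : ℤ) ^ 4 := pow_le_pow_right₀ hK' (by norm_num)
  have h1 : (y : ℤ) * (y + 1) ≤ 2 * (K : ℤ) ^ 2 := by nlinarith
  have h2 : (y : ℤ) * (y + 1) * ((z : ℤ) ^ 2 - 2 * z) ≤ 2 * (K : ℤ) ^ 2 * (K : ℤ) ^ 2 := by
    have h3 : (y : ℤ) * (y + 1) * ((z : ℤ) ^ 2 - 2 * z) ≤ (y : ℤ) * (y + 1) * (z : ℤ) ^ 2 := by
      have : (0 : ℤ) ≤ (y : ℤ) * (y + 1) * (2 * z) := by positivity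
      nlinarith
    refine h3.trans ?_
    exact mul_le_mul h1 hz2 (by positivity) (by positivity)
  have h3 : ((y : ℤ) + 1) ^ 2 ≤ 4 * (K : ℤ) ^ 2 := by
    have : ((y : ℤ) + 1) ^ 2 ≤ (2 * (K : ℤ)) ^ 2 := pow_le_pow_left₀ (by linarith) (by linarith) 2
    linarith
  have h4 : (z : ℤ) ^ 2 * (y + 1) ^ 2 ≤ (K : ℤ) ^ 2 * (4 * (K : ℤ) ^ 2) :=
    mul_le_mul hz2 h3 (by positivity) (by positivity)
  have h5 : rA y z ≤ 7 * (K : ℤ) ^ 4 := by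
    unfold rA
    nlinarith
  have h6 : (((rA y z).natAbs : ℕ) : ℤ) = rA y z := Int.natAbs_of_nonneg hpos
  have h7 : (((rA y z).natAbs : ℕ) : ℤ) ≤ ((7 * K ^ 4 : ℕ) : ℤ) := by
    rw [h6]
    push_cast
    exact h5
  exact_mod_cast h7

private theorem rB_le (y z K : ℕ) (hK : 1 ≤ K) (hy : 1 ≤ y) (hz : 1 ≤ z) (hyK : y ≤ K)
    (hzK : z ≤ K) : (rB y z).natAbs ≤ 8 * K ^ 3 := by
  have hy' : (1 : ℤ) ≤ y := by exact_mod_cast hy
  have hz' : (1 : ℤ) ≤ z := by exact_mod_cast hz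
  have hyK' : (y : ℤ) ≤ K := by exact_mod_cast hyK
  have hzK' : (z : ℤ) ≤ K := by exact_mod_cast hzK
  have hK' : (1 : ℤ) ≤ K := by exact_mod_cast hK
  have h0 : (0 : ℤ) ≤ (y : ℤ) + z - 2 := by linarith
  have hpos : 0 ≤ rB y z := by
    unfold rB
    positivity
  have h1 : ((y : ℤ) + z) ^ 2 ≤ (2 * (K : ℤ)) ^ 2 := pow_le_pow_left₀ (by linarith) (by linarith) 2
  have h2 : (y : ℤ) * z ≤ (K : ℤ) * K := mul_le_mul hyK' hzK' (by linarith) (by linarith)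
  have h3 : (y : ℤ) * z * ((y : ℤ) + z - 2) ≤ (K : ℤ) * K * (2 * K) :=
    mul_le_mul h2 (by linarith) h0 (by positivity)
  have hK2 : (K : ℤ) ^ 2 ≤ (K : ℤ) ^ 3 := pow_le_pow_right₀ hK' (by norm_num)
  have h5 : rB y z ≤ 8 * (K : ℤ) ^ 3 := by
    unfold rB
    nlinarith
  have h6 : (((rB y z).natAbs : ℕ) : ℤ) = rB y z := Int.natAbs_of_nonneg hpos
  have h7 : (((rB y z).natAbs : ℕ) : ℤ) ≤ ((8 * K ^ 3 : ℕ) : ℤ) := by
    rw [h6]
    push_cast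
    exact h5
  exact_mod_cast h7

theorem hDDB : StDDB := by
  intro K y y' hy hy' hyK hyK' hne
  have hK : 1 ≤ K := hy.trans hyK
  have hkk : ((y : ℤ) - y').natAbs ≠ 0 := by
    rw [Ne, Int.natAbs_eq_zero, sub_eq_zero]
    intro h
    exact hne (by exact_mod_cast h)
  have hkK : ((y : ℤ) - y').natAbs ≤ K := by omega
  constructor
  · unfold DD
    exact Nat.mul_pos (Nat.mul_pos (Nat.mul_pos (Nat.pos_of_ne_zero hkk)
      (rA_pos y y' hy hy')) (rA_pos y' y hy' hy)) (rB_pos y y' hy hy')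
  · unfold DD
    calc ((y : ℤ) - y').natAbs * (rA y y').natAbs * (rA y' y).natAbs * (rB y y').natAbs ≤
          K * (7 * K ^ 4) * (7 * K ^ 4) * (8 * K ^ 3) :=
          Nat.mul_le_mul (Nat.mul_le_mul (Nat.mul_le_mul hkK
            (rA_le y y' K hK hy hy' hyK hyK'))
            (rA_le y' y K hK hy' hy hyK' hyK))
            (rB_le y y' K hK hy hy' hyK hyK')
      _ = 392 * K ^ 12 := by ring
      _ ≤ 400 * K ^ 13 := Nat.mul_le_mul (by norm_num) (Nat.pow_le_pow_right hK (by norm_num))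

end Pool.Agent.Helper8.LPA
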